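import Pool.Agent.Q103.SF.Fin
import Pool.Agent.Y221.AH.Hp
import Pool.Agent.W619.TW.Hyp
import Pool.Agent.W619.PQ.Curve

/-!
# The degrees of the curves in a surface which carries a map with many preperiodic points
-/

set_option autoImplicit false

namespace Pool.Agent.Run7.h830.CS

open FF Polynomial
open Pool.Agent.W602.GT
open Pool.Agent.Q103.SF
open Pool.Agent.Y216 (OnVar)
open Pool.Agent.W603.LV (canDeg)
open Pool.Agent.W603.PV (pht pht_scale)
open Pool.Agent.Q271.RC (Nonconst)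

/-- the canonical degree of a curve is at least `-2` -/
theorem canDeg_ge_neg_two {L : Type} [Field L] [Algebra ℂ L] [IsFF ℂ L] : -2 ≤ canDeg ℂ L := by
  by_cases h : ∃ t : L, IntermediateField.adjoin ℂ {t} = ⊤
  · obtain ⟨t, ht⟩ := h
    exact (Pool.Agent.W619.PQ.canDeg_rational ht).ge
  · exact (by norm_num : (-2 : ℤ) ≤ 0).trans (Pool.Agent.W619.TW.canDeg_nonneg h)

/-- the degree of a curve only depends on its equations -/
theorem pht_eq {M : ℕ} {L L' : Type} [Field L] [Field L'] [Algebra ℂ L] [Algebra ℂ L'] [IsFF ℂ L]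
    [IsFF ℂ L'] {v : Fin (M + 1) → L} {v' : Fin (M + 1) → L'} (hv : ∃ j, v j ≠ 0)
    (hg : coords ℂ v = ⊤) (hg' : coords ℂ v' = ⊤) (h : van v = van v') : pht ℂ v = pht ℂ v' := by
  obtain ⟨i0, h0⟩ := hv
  have hiff : ∀ G : MvPolynomial (Fin (M + 1)) ℂ, IsForm G → (val v G = 0 ↔ val v' G = 0) := by
    intro G hG
    constructor
    · intro h1
      have h2 : G ∈ van v := ⟨hG, h1⟩
      rw [h] at h2
      exact h2.2
    · intro h1
      have h2 : G ∈ van v' := ⟨hG, h1⟩
      rw [← h] at h2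
      exact h2.2
  have hX : ∀ {E : Type} [Field E] [Algebra ℂ E] (u : Fin (M + 1) → E),
      val u (MvPolynomial.X i0 : MvPolynomial (Fin (M + 1)) ℂ) = u i0 := by
    intro E _ _ u
    unfold Pool.Agent.W602.GT.val
    rw [MvPolynomial.aeval_X]
  have h0' : v' i0 ≠ 0 := by
    intro h1
    apply h0
    have h2 := (hiff (MvPolynomial.X i0) ⟨1, MvPolynomial.isHomogeneous_X _ _⟩).2
      (by rw [hX, h1])
    rwa [hX] at h2
  obtain ⟨φ, hφ⟩ := exists_embedding h0 h0' hg hiff
  let _ : Algebra L L' := φ.toRingHom.toAlgebra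
  have : IsScalarTower ℂ L L' := IsScalarTower.of_algebraMap_eq fun c => (φ.commutes c).symm
  have hmap : ∀ u : L, algebraMap L L' u = φ u := fun _ => rfl
  have htop : φ.fieldRange = ⊤ := by
    rw [eq_top_iff, ← hg']
    unfold Pool.Agent.W602.GT.coords
    rw [IntermediateField.adjoin_le_iff]
    rintro _ ⟨i, j, hj, rfl⟩
    refine ⟨(v i / v i0) / (v j / v i0), ?_⟩
    show φ ((v i / v i0) / (v j / v i0)) = v' i / v' j
    rw [map_div₀, hφ, hφ, div_div_div_cancel_right₀ h0']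
  have hsurj : Function.Surjective (algebraMap L L') := by
    intro u
    have hu : u ∈ φ.fieldRange := by
      rw [htop]
      exact IntermediateField.mem_top
    exact hu
  have hfd : FiniteDimensional L L' := Module.Finite.of_surjective (Algebra.linearMap L L') hsurj
  have hfr : Module.finrank L L' = 1 := by
    have e : L ≃ₗ[L] L' := LinearEquiv.ofBijective (Algebra.linearMap L L')
      ⟨(algebraMap L L').injective, hsurj⟩
    rw [← e.finrank_eq, Module.finrank_self]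
  have h1 := Pool.Agent.Y221.AH.pht_algebraMap (k := ℂ) (K := L) (L := L')
    (f := fun j => v j / v i0) ⟨i0, div_ne_zero h0 h0⟩
  have h2 : (fun j => algebraMap L L' (v j / v i0)) = fun j => (v' i0)⁻¹ * v' j := by
    funext j
    rw [hmap, hφ, div_eq_mul_inv, mul_comm]
  have h3 : (fun j => v j / v i0) = fun j => (v i0)⁻¹ * v j := by
    funext j
    rw [div_eq_mul_inv, mul_comm]
  rw [h2, h3, hfr, pht_scale ⟨i0, h0'⟩ (inv_ne_zero h0'), pht_scale ⟨i0, h0⟩ (inv_ne_zero h0)] at h1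
  rw [h1]
  simp

/-- **Degrees of curves** in a surface with the special sets of `SpecialSets`. -/
theorem degree_bound {M : ℕ} {K : Type} [Field K] [Algebra ℂ K] {x : Fin (M + 1) → K}
    (h : SpecialSets x) : ∃ A B : ℕ, ∀ (L : Type) [Field L] [Algebra ℂ L] [IsFF ℂ L]
      (v : Fin (M + 1) → L), OnVar ℂ x v → coords ℂ v = ⊤ → pht ℂ v ≤ A * canDeg ℂ L + B := by
  classical
  obtain ⟨A, hA⟩ := h.degree
  have hlow : ∀ V ∈ lowCurves x, ∃ b : ℕ, ∀ (L : Type) [Field L] [Algebra ℂ L] [IsFF ℂ L]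
      (v : Fin (M + 1) → L), OnVar ℂ x v → coords ℂ v = ⊤ → van v = V → pht ℂ v ≤ b := by
    rintro V ⟨L0, _, _, _, v0, hv0, hg0, -, rfl⟩
    refine ⟨(pht ℂ v0).toNat, fun L _ _ _ v hv hg hV => ?_⟩
    rw [pht_eq hv.1 hg hg0 hV]
    exact Int.self_le_toNat _
  choose! b hb using hlow
  refine ⟨A, ∑ V ∈ h.finite.toFinset, b V + 2 * A, fun L _ _ _ v hv hg => ?_⟩
  have hc := canDeg_ge_neg_two (L := L)
  have hA0 : (0 : ℤ) ≤ A := Int.natCast_nonneg _
  have hA2 : (A : ℤ) * (-2) ≤ A * canDeg ℂ L := mul_le_mul_of_nonneg_left hc hA0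
  have hS0 : (0 : ℤ) ≤ ((∑ V ∈ h.finite.toFinset, b V : ℕ) : ℤ) := Int.natCast_nonneg _
  rcases hA L v hv (nonconst_of_low hv hg) with h1 | h1
  · push_cast at hS0 ⊢
    linarith
  · have h2 := hb _ h1 L v hv hg rfl
    have h3 : b (van v) ≤ ∑ V ∈ h.finite.toFinset, b V :=
      Finset.single_le_sum (f := b) (fun _ _ => Nat.zero_le _) (h.finite.mem_toFinset.2 h1)
    have h4 : ((b (van v) : ℕ) : ℤ) ≤ ((∑ V ∈ h.finite.toFinset, b V : ℕ) : ℤ) := by
      exact_mod_cast h3
    push_cast at hS0 h4 ⊢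
    linarith

end Pool.Agent.Run7.h830.CS
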