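import Pool.Agent.Q103.VR.Stm
import Pool.Agent.Q41.GT.Ah

/-!
# Varieties over algebraically closed fields of characteristic zero which carry a map with many
preperiodic points: general type and pseudo-geometric hyperbolicity
-/

set_option autoImplicit false

namespace Pool.Agent.Run7.h830.CS

open Polynomial FF
open Pool.Agent.W602.GT
open Pool.Agent.Q41.SU (Stab)
open Pool.Agent.Q41.GT (crs a_gt c_dcb)
open Pool.Agent.Q103.EC (ManyPrep prePer exists_stab b_str)
open Pool.Agent.Q103.VR (ModuliFibration)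
open Pool.Agent.TH466.QG (StronglyGeneral)
open Pool.Agent.W602.RG (PseudoGeomHyp)
open Pool.Agent.Y216 (CurveBound pointed_of_bound)

/-- maximal variation -/
theorem geom (d : ℕ) (hd : 2 ≤ d) : ∃ B : ℕ, ∀ (k K : Type) [Field k] [IsAlgClosed k] [CharZero k]
    [Field K] [Algebra k K] (p q : K[X]), ManyPrep k d B p q →
    (∀ w : ℕ, 1 ≤ w → Algebra.trdeg k K = w → GeneralType k K w) ∧
    ∀ (M : ℕ) (x : Fin (M + 1) → K), x ≠ 0 → coords k x = ⊤ →
      StronglyGeneral k x ∧ PseudoGeomHyp k x ∧ CurveBound k x := by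
  obtain ⟨B1, hB1⟩ := a_gt d hd
  obtain ⟨B2, hB2⟩ := c_dcb d hd
  obtain ⟨B3, hB3⟩ := b_str d hd
  refine ⟨max (max B1 B2) (max B3 (3 * d + 7)), ?_⟩
  intro k K _ _ _ _ _ p q h
  obtain ⟨p', q', P', hp', hq', hpq', hst, hc, halg⟩ := exists_stab hd
    (le_trans (le_max_right _ _) (le_max_right (max B1 B2) _)) h
  have c1 : B1 ≤ P'.card := by omega
  have c2 : B2 ≤ P'.card := by omega
  have c3 : B3 ≤ P'.card := by omega
  have : CharZero K := charZero_of_injective_algebraMap (algebraMap k K).injective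
  refine ⟨fun w hw htr => hB1 k K w hw htr p' q' hp' hq' hpq' P' hst c1 halg, ?_⟩
  intro M x hx hgen
  have h2 := hB2 k K p' q' hp' hq' hpq' P' hst c2 halg M x hx hgen
  exact ⟨hB3 k K M x hx hgen p' q' hp' hq' hpq' P' hst c3 halg, pointed_of_bound h2, h2⟩

end Pool.Agent.Run7.h830.CS
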