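import Pool.Agent.Run7.h830.CS.Model

/-!
# The moduli fibration of a map with many preperiodic points: special varieties and entire curves
-/

set_option autoImplicit false

namespace Pool.Agent.Run7.h830.CS

open Polynomial FF
open Pool.Agent.W602.GT
open Pool.Agent.W277.UH (ratP1)
open Pool.Agent.N115.JS (ConstCurve FibreCurves)
open Pool.Agent.Y221.BD (PseudoBrody EntireCurve)
open Pool.Agent.Q103.EC (ManyPrep prePer Isotrivial HypOff)
open Pool.Agent.Q103.VR (DefinedOver ModuliFibration IsVariation)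

/-- hyperbolicity modulo a proper closed subset contains pseudo-Brody hyperbolicity -/
theorem pseudoBrody_of_hypOff {M : ℕ} {L : Type} [Field L] [Algebra ℂ L] {x : Fin (M + 1) → L}
    (h : ∃ R, HypOff x R) : PseudoBrody x := by
  obtain ⟨R, hR⟩ := h
  exact ⟨R, hR.form, hR.ne, hR.curve⟩

/-- **The moduli fibration over the complex numbers.** -/
theorem fib (d : ℕ) (hd : 2 ≤ d) : ∃ B : ℕ, ∀ (K : Type) [Field K] [Algebra ℂ K] (p q : K[X]),
    IsCoprime p q → max p.natDegree q.natDegree = d → (B : ℕ∞) ≤ (prePer d p q).encard →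
    ∀ w : ℕ, Algebra.trdeg ℂ K = w →
    ∃ (E : IntermediateField ℂ K) (v : ℕ), ModuliFibration d p q E ∧ v ≤ w ∧
      Algebra.trdeg ℂ E = v ∧ IsVariation ℂ d p q v ∧
      (1 ≤ v → GeneralType ℂ E v ∧ ∀ (M : ℕ) (x : Fin (M + 1) → E), x ≠ 0 → coords ℂ x = ⊤ →
        ∃ R, HypOff x R) := by
  obtain ⟨B1, hB1⟩ := Pool.Agent.Q103.VR.fibration d hd
  obtain ⟨B2, hB2⟩ := Pool.Agent.Q103.EC.main d hd
  obtain ⟨B3, hB3⟩ := Pool.Agent.Q103.VR.general d hd
  refine ⟨max (max B1 3) (max B2 B3), ?_⟩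
  intro K _ _ p q hco hmax hmany w hw
  have : CharZero K := charZero_of_injective_algebraMap (algebraMap ℂ K).injective
  obtain ⟨E, hE, p', q', hmp⟩ := Pool.Agent.Q103.VR.exists_moduli (k := ℂ) hd
    (le_trans (le_max_right B1 3) (le_max_left _ (max B2 B3))) hco hmax hmany
  obtain ⟨v, hv, htr⟩ := Pool.Agent.Q103.VR.exists_dim E hw
  refine ⟨E, v, hE, hv, htr, hE.variation htr, fun h1 => ?_⟩
  have hmp2 : ManyPrep ℂ d B2 p' q' := ⟨hmp.coprime, hmp.deg, hmp.maxVar,
    le_trans (by exact_mod_cast le_trans (le_max_left B2 B3) (le_max_right (max B1 3) _)) hmp.many⟩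
  exact hB2 E p' q' hmp2 v h1 htr

/-- **Special and Brody-special varieties.** -/
theorem special (d : ℕ) (hd : 2 ≤ d) : ∃ B : ℕ, ∀ (K : Type) [Field K] [Algebra ℂ K] (M : ℕ)
    (x : Fin (M + 1) → K), x ≠ 0 → coords ℂ x = ⊤ → ∀ w : ℕ, Algebra.trdeg ℂ K = w →
    (Special ℂ K w (fun _ => False) ∨ BrodySpecial (∅ : Set (Fin (M + 1))) x) →
    ∀ p q : K[X], IsCoprime p q → max p.natDegree q.natDegree = d →
    (B : ℕ∞) ≤ (prePer d p q).encard → ModuliFibration d p q (⊥ : IntermediateField ℂ K) := by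
  obtain ⟨B, hB⟩ := fib d hd
  refine ⟨B, ?_⟩
  intro K _ _ M x hx hgen w hw hS p q hco hmax hmany
  have : CharZero K := charZero_of_injective_algebraMap (algebraMap ℂ K).injective
  have hess : Algebra.EssFiniteType ℂ K := essFinite hgen
  obtain ⟨E, v, hE, hv, htr, hvar, h1⟩ := hB K p q hco hmax hmany w hw
  have hbot : E = ⊥ := by
    rcases Nat.eq_zero_or_pos v with h0 | h0
    · apply bot_of_trdeg
      rw [htr, h0, Nat.cast_zero]
    · obtain ⟨hg, hh⟩ := h1 h0
      obtain ⟨M0, y, hy, hygen⟩ := exists_model (k := ℂ) E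
      rcases hS with hS | hS
      · exfalso
        have hess : Algebra.EssFiniteType ℂ E := essFinite hygen
        exact Pool.Agent.TH466.QT.not_special hw E h0 hg hS
      · exact bot_of_dense E hx hgen hy hygen (pseudoBrody_of_hypOff (hh M0 y hy hygen)) hS
  rw [hbot] at hE
  exact hE

/-- A map whose moduli fibration is constant is conjugate to a map with constant coefficients, and its
preperiodic points correspond to constants. -/
theorem descend {K : Type} [Field K] [Algebra ℂ K] {d : ℕ} {p q : K[X]}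
    (h : ModuliFibration d p q (⊥ : IntermediateField ℂ K)) :
    ∃ (p' q' : ℂ[X]) (a b c e : K), a * e - b * c ≠ 0 ∧ IsCoprime p' q' ∧
      max p'.natDegree q'.natDegree = d ∧
      (∀ y, ratP1 (C a * X + C b) (C c * X + C e) 1 (ratP1 p q d y) =
        ratP1 (p'.map (algebraMap ℂ K)) (q'.map (algebraMap ℂ K)) d
          (ratP1 (C a * X + C b) (C c * X + C e) 1 y)) ∧
      ∀ z ∈ prePer d p q, ∃ y : Option ℂ, Option.map (algebraMap ℂ K) y =
        ratP1 (C a * X + C b) (C c * X + C e) 1 z := by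
  obtain ⟨p', q', a, b, c, e, hdet, hco, hmax, hconj, hpts⟩ := h.descends
  let ψ : (⊥ : IntermediateField ℂ K) ≃ₐ[ℂ] ℂ := IntermediateField.botEquiv ℂ K
  have hψ : (algebraMap ℂ K).comp (ψ : (⊥ : IntermediateField ℂ K) →+* ℂ) =
      algebraMap (⊥ : IntermediateField ℂ K) K := by
    ext u
    obtain ⟨c, rfl⟩ := (IntermediateField.botEquiv ℂ K).symm.surjective u
    simp only [RingHom.comp_apply, RingHom.coe_coe, ψ, AlgEquiv.apply_symm_apply]
    rfl
  have hinj : Function.Injective (ψ : (⊥ : IntermediateField ℂ K) →+* ℂ) := ψ.injective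
  refine ⟨p'.map (ψ : (⊥ : IntermediateField ℂ K) →+* ℂ),
    q'.map (ψ : (⊥ : IntermediateField ℂ K) →+* ℂ), a, b, c, e, hdet,
    hco.map (mapRingHom (ψ : (⊥ : IntermediateField ℂ K) →+* ℂ)), ?_, ?_, ?_⟩
  · rw [natDegree_map_eq_of_injective hinj, natDegree_map_eq_of_injective hinj, hmax]
  · intro y
    rw [Polynomial.map_map, Polynomial.map_map, hψ]
    exact hconj y
  · intro z hz
    obtain ⟨y, hy⟩ := hpts z hz
    refine ⟨Option.map ψ y, ?_⟩
    rw [← hy, Option.map_map]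
    congr 1
    funext u
    exact RingHom.congr_fun hψ u

/-- **Entire curves and the moduli fibration.** -/
theorem fibres {K : Type} [Field K] [Algebra ℂ K] {E : IntermediateField ℂ K} {M M0 : ℕ}
    {x : Fin (M + 1) → K} {y : Fin (M0 + 1) → E} (hx : x ≠ 0) (hgen : coords ℂ x = ⊤)
    (hy : y ≠ 0) (h : ∃ R, HypOff y R) :
    ∃ (R : MvPolynomial (Fin (M + 1)) ℂ) (A : Fin (M0 + 1) → MvPolynomial (Fin (M + 1)) ℂ)
      (e : ℕ) (t : K), IsForm R ∧ val x R ≠ 0 ∧ (∀ i, (A i).IsHomogeneous e) ∧ t ≠ 0 ∧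
      (∀ i, val x (A i) = t * (y i : K)) ∧
      ∀ f, EntireCurve x f → (∃ s, MvPolynomial.eval (fun i => f i s) R ≠ 0) →
        ConstCurve fun i s => MvPolynomial.eval (fun j => f j s) (A i) :=
  Pool.Agent.N459.JS.fibreCurves K E M M0 x y hx hgen hy (pseudoBrody_of_hypOff h)

/-- a map whose moduli fibration is constant is isotrivial -/
theorem isotrivial_of_bot {K : Type} [Field K] [Algebra ℂ K] {d : ℕ} {p q : K[X]}
    (h : ModuliFibration d p q (⊥ : IntermediateField ℂ K)) : Isotrivial ℂ d p q := by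
  rw [h.isotrivial]
  intro y hy
  obtain ⟨c, rfl⟩ := IntermediateField.mem_bot.1 hy
  exact isAlgebraic_algebraMap c

/-- maps of maximal variation over a variety of positive dimension are not isotrivial -/
theorem not_isotrivial {K : Type} [Field K] [Algebra ℂ K] {d n : ℕ} (hd : 2 ≤ d) {p q : K[X]}
    (h : ManyPrep ℂ d n p q) (hw : Algebra.trdeg ℂ K = (2 * d - 2 : ℕ)) :
    ¬ Isotrivial ℂ d p q := by
  intro hiso
  rw [← Pool.Agent.Q103.VR.definedOver_bot] at hiso
  obtain ⟨p', q', a, b, c, e, h1, h2, h3, h4, h5⟩ := hiso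
  have h6 := h.maxVar ⊥ p' q' a b c e h1 h2 h3 h4 h5
  have h7 : Algebra.IsAlgebraic ℂ K := by
    refine ⟨fun y => ?_⟩
    have : Algebra.IsAlgebraic ℂ (⊥ : IntermediateField ℂ K) := inferInstance
    exact (h6.isAlgebraic y).restrictScalars ℂ
  have h8 := trdeg_eq_zero_iff.2 h7
  rw [hw] at h8
  have h9 : 2 * d - 2 = 0 := by exact_mod_cast h8
  omega

end Pool.Agent.Run7.h830.CS
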