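import Pool.Agent.Q103.VR.Stm
import Pool.Agent.Q103.EC.Hyp
import Pool.Agent.TH466.QT.Spec
import Pool.Agent.N459.JS.FibCurv
import Pool.Agent.N664.JS.SubFG
import Pool.Agent.W602.GT.BroDefs
import Pool.Agent.W602.GT.SpecDefs

/-!
# Maps with many preperiodic points over the function fields of special and Brody-special varieties

`exists_model` and `const_of_dense` are copied from `Pool/Agent/N115/JS/Fin.lean`.
-/

set_option autoImplicit false
set_option linter.unusedSectionVars false

namespace Pool.Agent.Run7.h830.CS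

open Polynomial FF
open Pool.Agent.W602.GT
open Pool.Agent.N115.JS (ConstCurve FibreCurves)
open Pool.Agent.Y221.BD (PseudoBrody EntireCurve)
open Pool.Agent.Q103.EC (ManyPrep prePer Isotrivial HypOff)
open Pool.Agent.Q103.VR (DefinedOver ModuliFibration IsVariation)

theorem coords_le {k F : Type} [Field k] [Field F] [Algebra k F] {M : ℕ} (z : Fin (M + 1) → F)
    (B : IntermediateField k F) (h : ∀ i j, z j ≠ 0 → z i / z j ∈ B) : coords k z ≤ B := by
  unfold Pool.Agent.W602.GT.coords
  rw [IntermediateField.adjoin_le_iff]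
  rintro _ ⟨i, j, hj, rfl⟩
  exact h i j hj

/-- the base has projective models -/
theorem exists_model {k L : Type} [Field k] [CharZero k] [Field L] [Algebra k L]
    [Algebra.EssFiniteType k L] (L0 : IntermediateField k L) :
    ∃ (M0 : ℕ) (x : Fin (M0 + 1) → L0), x ≠ 0 ∧ coords k x = ⊤ := by
  classical
  obtain ⟨S, hS, hgen⟩ := Pool.Agent.N664.JS.subFG k L L0
  set V : Set L0 := {1} ∪ S with hV
  have hVf : V.Finite := (Set.finite_singleton _).union hS
  obtain ⟨q, y, hy⟩ : ∃ (q : ℕ) (y : Fin (q + 1) → L0), Set.range y = V := by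
    obtain ⟨q, y, hy⟩ := hVf.fin_param
    cases q with
    | zero =>
      exfalso
      have h1 : (1 : L0) ∈ V := Or.inl rfl
      rw [← hy.2] at h1
      obtain ⟨l, -⟩ := h1
      exact l.elim0
    | succ q => exact ⟨q, y, hy.2⟩
  have h1 : (1 : L0) ∈ V := Or.inl rfl
  rw [← hy] at h1
  obtain ⟨i0, hi0⟩ := h1
  refine ⟨q, y, fun h => ?_, ?_⟩
  · have h2 := congrFun h i0
    rw [hi0] at h2
    exact one_ne_zero h2
  · rw [eq_top_iff, ← hgen, IntermediateField.adjoin_le_iff]
    intro u hu
    have h3 : u ∈ V := Or.inr hu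
    rw [← hy] at h3
    obtain ⟨l, rfl⟩ := h3
    have h4 : y l / y i0 ∈ coords k y :=
      IntermediateField.subset_adjoin k _ ⟨l, i0, by rw [hi0]; exact one_ne_zero, rfl⟩
    rwa [hi0, div_one] at h4

/-- dense entire curves, and constant images -/
theorem const_of_dense {L : Type} [Field L] [Algebra ℂ L] (L0 : IntermediateField ℂ L)
    {M M0 : ℕ} {ξ : Fin (M + 1) → L} {x : Fin (M0 + 1) → L0} (hx : x ≠ 0)
    (hgen : coords ℂ x = ⊤)
    {A : Fin (M0 + 1) → MvPolynomial (Fin (M + 1)) ℂ} {d : ℕ} {h : L}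
    (hA : ∀ i, (A i).IsHomogeneous d) (hh : h ≠ 0) (hAx : ∀ i, val ξ (A i) = h * (x i : L))
    {f : Fin (M + 1) → ℂ → ℂ}
    (hdense : ∀ G : MvPolynomial (Fin (M + 1)) ℂ, IsForm G →
      (∀ t, MvPolynomial.eval (fun j => f j t) G = 0) → val ξ G = 0)
    (hc : ConstCurve fun i t => MvPolynomial.eval (fun j => f j t) (A i)) : L0 = ⊥ := by
  classical
  obtain ⟨i1, hi1⟩ : ∃ i, x i ≠ 0 := by
    by_contra hcon
    push Not at hcon
    exact hx (funext hcon)
  have hi1L : (x i1 : L) ≠ 0 := fun h0 => hi1 (Subtype.ext h0)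
  obtain ⟨t', ht'⟩ : ∃ t', MvPolynomial.eval (fun j => f j t') (A i1) ≠ 0 := by
    by_contra hcon
    push Not at hcon
    have h1 := hdense (A i1) ⟨d, hA i1⟩ hcon
    rw [hAx i1] at h1
    exact mul_ne_zero hh hi1L h1
  set c : Fin (M0 + 1) → ℂ := fun i => MvPolynomial.eval (fun j => f j t') (A i) with hcdef
  have hrel : ∀ i, c i1 • (x i : L) = c i • (x i1 : L) := by
    intro i
    have h1 : val ξ (MvPolynomial.C (c i1) * A i - MvPolynomial.C (c i) * A i1) = 0 := by
      refine hdense _ ⟨d, ?_⟩ fun t => ?_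
      · have h2 := ((MvPolynomial.isHomogeneous_C (Fin (M + 1)) (c i1)).mul (hA i)).sub
          ((MvPolynomial.isHomogeneous_C (Fin (M + 1)) (c i)).mul (hA i1))
        rwa [zero_add] at h2
      · rw [map_sub, map_mul, map_mul, MvPolynomial.eval_C, MvPolynomial.eval_C]
        have h2 := hc t t' i i1
        simp only [hcdef]
        linear_combination h2
    have h2 : val ξ (MvPolynomial.C (c i1) * A i - MvPolynomial.C (c i) * A i1) =
        h * (c i1 • (x i : L) - c i • (x i1 : L)) := by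
      unfold Pool.Agent.W602.GT.val
      rw [map_sub, map_mul, map_mul, MvPolynomial.aeval_C, MvPolynomial.aeval_C]
      have h3 : MvPolynomial.aeval ξ (A i) = h * (x i : L) := hAx i
      have h4 : MvPolynomial.aeval ξ (A i1) = h * (x i1 : L) := hAx i1
      rw [h3, h4, Algebra.smul_def, Algebra.smul_def]
      ring
    rw [h2] at h1
    exact sub_eq_zero.1 ((mul_eq_zero.1 h1).resolve_left hh)
  have hle : coords ℂ x ≤ ⊥ := by
    refine coords_le x ⊥ fun i j hj => ?_
    rw [IntermediateField.mem_bot]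
    have hjL : (x j : L) ≠ 0 := fun h0 => hj (Subtype.ext h0)
    have hc1 : c i1 ≠ 0 := ht'
    have hcj : c j ≠ 0 := by
      intro h0
      have h1 := hrel j
      rw [h0, zero_smul, Algebra.smul_def] at h1
      exact mul_ne_zero ((_root_.map_ne_zero _).2 hc1) hjL h1
    refine ⟨c i / c j, ?_⟩
    apply Subtype.ext
    change algebraMap ℂ L (c i / c j) = (x i : L) / (x j : L)
    have h1 := hrel i
    have h2 := hrel j
    rw [Algebra.smul_def, Algebra.smul_def] at h1 h2
    have hc1' : algebraMap ℂ L (c i1) ≠ 0 := (_root_.map_ne_zero _).2 hc1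
    have hcj' : algebraMap ℂ L (c j) ≠ 0 := (_root_.map_ne_zero _).2 hcj
    rw [map_div₀, div_eq_div_iff hcj' hjL]
    apply mul_left_cancel₀ hc1'
    linear_combination algebraMap ℂ L (c i) * h2 - algebraMap ℂ L (c j) * h1
  rw [eq_bot_iff]
  intro u hu
  have h1 : (⟨u, hu⟩ : L0) ∈ (⊥ : IntermediateField ℂ L0) := by
    apply hle
    rw [hgen]
    exact IntermediateField.mem_top
  rw [IntermediateField.mem_bot] at h1
  obtain ⟨c, hc⟩ := h1
  rw [IntermediateField.mem_bot]
  exact ⟨c, congrArg Subtype.val hc⟩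


/-- the values of a polynomial at a complex point -/
theorem val_eval {N : ℕ} (x : Fin (N + 1) → ℂ) (G : MvPolynomial (Fin (N + 1)) ℂ) :
    val x G = MvPolynomial.eval x G := by
  unfold Pool.Agent.W602.GT.val
  rw [← MvPolynomial.aeval_eq_eval]

/-- the dimension of a projective variety -/
theorem dim_of_gen {k L : Type} [Field k] [Field L] [Algebra k L] {M : ℕ} {ξ : Fin (M + 1) → L}
    (hgen : coords k ξ = ⊤) : ∃ D : ℕ, Algebra.trdeg k L = D := by
  have hess : Algebra.EssFiniteType k L := essFinite hgen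
  have h : FinTrdeg k L := inferInstance
  exact Cardinal.lt_aleph0.1 (trdeg_lt_aleph0 k L)

/-- subfields of transcendence degree `0` -/
theorem bot_of_trdeg {k L : Type} [Field k] [IsAlgClosed k] [Field L] [Algebra k L]
    (L0 : IntermediateField k L) (h : Algebra.trdeg k L0 = 0) : L0 = ⊥ := by
  have h1 : Algebra.IsAlgebraic k L0 := trdeg_eq_zero_iff.1 h
  exact IntermediateField.eq_bot_of_isAlgClosed_of_isAlgebraic L0

/-- **Zariski-dense entire curves** in a variety which dominates a pseudo-Brody hyperbolic one. -/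
theorem bot_of_dense {L : Type} [Field L] [Algebra ℂ L] (E : IntermediateField ℂ L) {M M0 : ℕ}
    {ξ : Fin (M + 1) → L} {x : Fin (M0 + 1) → E} (hξ : ξ ≠ 0) (hgen : coords ℂ ξ = ⊤)
    (hx : x ≠ 0) (hxgen : coords ℂ x = ⊤) (hB : PseudoBrody x)
    (h : BrodySpecial (∅ : Set (Fin (M + 1))) ξ) : E = ⊥ := by
  classical
  obtain ⟨R, A, d, h0, hR, hR0, hA, hh, hAx, hcurve⟩ := Pool.Agent.N459.JS.fibreCurves L
    E M M0 ξ x hξ hgen hx hB
  obtain ⟨g, hg, hgm, hgd⟩ := h
  let g' : Fin (M + 1) → ℂ → ℂ := fun i t => g t i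
  have hdense : ∀ G : MvPolynomial (Fin (M + 1)) ℂ, IsForm G →
      (∀ t, MvPolynomial.eval (fun j => g' j t) G = 0) → val ξ G = 0 := by
    intro G hG h1
    refine hgd G hG fun z => ?_
    rw [val_eval]
    exact h1 z
  refine const_of_dense E hx hxgen hA hh hAx hdense ?_
  by_cases hnc : ∃ i j a b, g' i a * g' j b ≠ g' j a * g' i b
  · have hE : EntireCurve ξ g' := by
      refine ⟨fun i => (differentiable_pi.1 hg) i, fun t => ?_, fun G hG h1 t => ?_, hnc⟩
      · exact Function.ne_iff.1 (hgm t).1.1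
      · have h2 := (hgm t).1.2 G hG h1
        rw [val_eval] at h2
        exact h2
    refine hcurve g' hE ?_
    by_contra hcon
    push Not at hcon
    exact hR0 (hdense R hR hcon)
  · push Not at hnc
    intro t t' i j
    -- the map is constant
    obtain ⟨i0, hi0⟩ : ∃ i, g' i t' ≠ 0 := Function.ne_iff.1 (hgm t').1.1
    have h1 : (fun l => g' l t) = fun l => (g' i0 t / g' i0 t') * g' l t' := by
      funext l
      have h2 := hnc l i0 t t'
      field_simp
      rw [h2]
    simp only [h1]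
    rw [Pool.Agent.N459.JS.eval_scale (hA i), Pool.Agent.N459.JS.eval_scale (hA j)]
    ring

end Pool.Agent.Run7.h830.CS
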