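import Pool.Agent.Run7.h830.CS.QHt

/-!
# Degrees of curves in the quasi-finite covers of the moduli spaces of maps with a marked point
-/

set_option autoImplicit false

namespace Pool.Agent.Run7.h830.CS

open Finset FF
open Pool.Agent.Q41.GT
open Pool.Agent.W603.LV (hgt canDeg)
open Pool.Agent.W603.PV (pht pht_le)

/-- the homogeneous coordinates of a point of affine space -/
def hom1 {L : Type} [Field L] {m : ℕ} (x : Fin m → L) : Fin (m + 1) → L := Fin.cons 1 x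

theorem pht_hom1 {k L : Type} [Field k] [IsAlgClosed k] [CharZero k] [Field L] [Algebra k L]
    [IsFF k L] {m : ℕ} (x : Fin m → L) : pht k (hom1 x) ≤ ∑ i, hgt k (x i) := by
  have h0 : hom1 x 0 = 1 := rfl
  have h1 := pht_le (k := k) (hom1 x) (l := 0) (by rw [h0]; exact one_ne_zero)
  refine h1.trans (le_of_eq ?_)
  rw [Fin.sum_univ_succ]
  have h2 : hgt k (hom1 x 0 / hom1 x 0) = 0 := by
    rw [h0, div_one]
    exact Pool.Agent.W603.LV.hgt_one
  rw [h2, zero_add]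
  refine Finset.sum_congr rfl fun i _ => ?_
  rw [h0, div_one]
  rfl

/-- **Degrees of curves.** -/
theorem qdeg (d : ℕ) (hd : 2 ≤ d) : ∃ B : ℕ, ∀ n : ℕ, B ≤ n → ∀ (k τ : Type) [Field k]
    [IsAlgClosed k] [CharZero k] [Fintype τ] (I J : Set (MvPolynomial (τ ⊕ Sg d) k))
    (U : Set (τ ⊕ Sg d → k)), QFin d n I J U → ∀ (m : ℕ) (e : Fin m ≃ τ ⊕ Sg d),
    ∃ C : ℕ, ∀ (L : Type) [Field L] [Algebra k L] [IsFF k L] (x : τ ⊕ Sg d → L),
    (∀ F ∈ I, MvPolynomial.aeval x F = 0) → (∃ G ∈ J, MvPolynomial.aeval x G ≠ 0) →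
    pht k (hom1 fun i => x (e i)) ≤ C * max (canDeg k L) 0 := by
  obtain ⟨B, hB⟩ := qht d hd
  refine ⟨B, fun n hn k τ _ _ _ _ I J U hU m e => ?_⟩
  obtain ⟨C, hC⟩ := hB n hn k τ I J U hU
  refine ⟨m * C, fun L _ _ _ x hI hJ => (pht_hom1 _).trans ?_⟩
  refine (Finset.sum_le_sum fun i _ => hC L x hI hJ (e i)).trans (le_of_eq ?_)
  rw [Finset.sum_const, Finset.card_univ, Fintype.card_fin, nsmul_eq_mul]
  push_cast
  ring

end Pool.Agent.Run7.h830.CS
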