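import Pool.Agent.Q41.GT.Ah
import Pool.Agent.Q209.GT.Sub

/-!
# Heights on the quasi-finite covers of the moduli spaces of maps with a marked periodic point

The statement (A10) `S_qht` of `Pool/Agent/Q41/GT/Stm7.lean` (helper41), with the proof proposed there.
-/

set_option autoImplicit false

namespace Pool.Agent.Run7.h830.CS

open Finset Polynomial FF
open Pool.Agent.Q41.GT
open Pool.Agent.W603.LV (hgt canDeg hgt_root hgt_mvpoly hgt_nonneg)
open Pool.Agent.W603.PV (pht pht_le)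

/-- an algebraic equation with coefficients polynomials in a family of generators -/
theorem alg_rel {k K ι : Type} [Field k] [Field K] [Algebra k K] (u : ι → K) {z : K}
    (h : IsAlgebraic (IntermediateField.adjoin k (Set.range u)) z) :
    ∃ (D : ℕ) (g : ℕ → MvPolynomial ι k), MvPolynomial.aeval u (g D) ≠ 0 ∧
      ∑ m ∈ Finset.range (D + 1), MvPolynomial.aeval u (g m) * z ^ m = 0 := by
  classical
  obtain ⟨D, g, hg1, hg2⟩ := Pool.Agent.Q209.GT.alg_eqn (S := Set.range u) h
  have hs : ∀ s : Set.range u, ∃ i, u i = s := fun s => s.2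
  choose e he using hs
  have hval : ∀ G : MvPolynomial (Set.range u) k, MvPolynomial.aeval u (MvPolynomial.rename e G) =
      MvPolynomial.aeval (Subtype.val : Set.range u → K) G := by
    intro G
    rw [MvPolynomial.aeval_rename]
    congr 1
    congr 1
    funext s
    exact he s
  refine ⟨D, fun m => MvPolynomial.rename e (g m), ?_, ?_⟩
  · rw [hval]
    exact hg1
  · simp only [hval]
    exact hg2

/-- (A10) **Heights on quasi-finite covers of the moduli spaces.** -/
theorem qht : S_qht := by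
  classical
  intro d hd
  obtain ⟨B, hB⟩ := c_vht d hd
  refine ⟨max B 1, ?_⟩
  intro n hn k τ _ _ _ _ I J U hU
  have hn1 : 1 ≤ n := le_trans (le_max_right _ _) hn
  have hd1 : 1 ≤ d := by omega
  obtain ⟨C0, hC0⟩ := hB n (le_trans (le_max_left _ _) hn)
  have hmaps : ∀ (L : Type) [Field L] [Algebra k L] (x : τ ⊕ Sg d → L),
      (∀ F ∈ I, MvPolynomial.aeval x F = 0) → (∃ G ∈ J, MvPolynomial.aeval x G ≠ 0) →
      (fun i => x (Sum.inr i)) ∈ V d n L := fun L _ _ x hI hJ =>
    Pool.Agent.Q211.GT.maps_ext Pool.Agent.Q176.GT.R1.hom hd1 hn1 hU x hI hJ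
  have hren : ∀ {M : Type} [Field M] [Algebra k M] (w : τ ⊕ Sg d → M) (F : MvPolynomial (Sg d) k),
      MvPolynomial.aeval w (MvPolynomial.rename Sum.inr F) =
        MvPolynomial.aeval (fun i => w (Sum.inr i)) F := by
    intro M _ _ w F
    rw [MvPolynomial.aeval_rename]
    rfl
  -- noetherian induction
  have key : ∀ 𝔞 : Ideal (MvPolynomial (τ ⊕ Sg d) k), ∃ C : ℕ, ∀ (L : Type) [Field L]
      [Algebra k L] [IsFF k L] (x : τ ⊕ Sg d → L), (∀ F ∈ I, MvPolynomial.aeval x F = 0) →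
      (∃ G ∈ J, MvPolynomial.aeval x G ≠ 0) → (∀ F ∈ 𝔞, MvPolynomial.aeval x F = 0) →
      ∀ j : τ, hgt k (x (Sum.inl j)) ≤ C * max (canDeg k L) 0 := by
    intro 𝔞
    induction 𝔞 using (wellFounded_gt (α := Ideal (MvPolynomial (τ ⊕ Sg d) k))).induction with
    | _ 𝔞 ih =>
    -- a larger ideal
    have hlt : ∀ F : MvPolynomial (τ ⊕ Sg d) k, F ∉ 𝔞 → 𝔞 < 𝔞 ⊔ Ideal.span {F} := by
      intro F hF
      refine lt_of_le_of_ne le_sup_left fun h => hF ?_
      rw [h]
      exact (le_sup_right : Ideal.span {F} ≤ _) (Ideal.mem_span_singleton_self F)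
    have hsup : ∀ (L : Type) [Field L] [Algebra k L] (x : τ ⊕ Sg d → L)
        (F : MvPolynomial (τ ⊕ Sg d) k), (∀ F ∈ 𝔞, MvPolynomial.aeval x F = 0) →
        MvPolynomial.aeval x F = 0 → ∀ G ∈ 𝔞 ⊔ Ideal.span {F}, MvPolynomial.aeval x G = 0 := by
      intro L _ _ x F h1 h2
      have h3 : 𝔞 ⊔ Ideal.span {F} ≤
          RingHom.ker (MvPolynomial.aeval x : MvPolynomial (τ ⊕ Sg d) k →ₐ[k] L).toRingHom := by
        refine sup_le (fun G hG => h1 G hG) ?_
        rw [Ideal.span_singleton_le_iff_mem]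
        exact h2
      exact fun G hG => h3 hG
    by_cases htop : 𝔞 = ⊤
    · refine ⟨0, fun L _ _ _ x _ _ ha => ?_⟩
      exfalso
      have h1 := ha 1 (by rw [htop]; exact Submodule.mem_top)
      rw [map_one] at h1
      exact one_ne_zero h1
    by_cases hpr : 𝔞.IsPrime
    swap
    · rw [Ideal.not_isPrime_iff] at hpr
      obtain ⟨F, hF, G, hG, hFG⟩ := hpr.resolve_left htop
      obtain ⟨C1, hC1⟩ := ih _ (hlt F hF)
      obtain ⟨C2, hC2⟩ := ih _ (hlt G hG)
      refine ⟨max C1 C2, fun L _ _ _ x hI hJ ha j => ?_⟩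
      have h0 : (0 : ℤ) ≤ max (canDeg k L) 0 := le_max_right _ _
      have h1 := ha _ hFG
      rw [map_mul] at h1
      rcases mul_eq_zero.1 h1 with h2 | h2
      · refine (hC1 L x hI hJ (hsup L x F ha h2) j).trans (mul_le_mul_of_nonneg_right ?_ h0)
        exact_mod_cast le_max_left _ _
      · refine (hC2 L x hI hJ (hsup L x G ha h2) j).trans (mul_le_mul_of_nonneg_right ?_ h0)
        exact_mod_cast le_max_right _ _
    -- the generic point
    let K := FractionRing (MvPolynomial (τ ⊕ Sg d) k ⧸ 𝔞)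
    let y : τ ⊕ Sg d → K := fun i => algebraMap (MvPolynomial (τ ⊕ Sg d) k ⧸ 𝔞) K
      (Ideal.Quotient.mk 𝔞 (MvPolynomial.X i))
    have hy : ∀ F : MvPolynomial (τ ⊕ Sg d) k, MvPolynomial.aeval y F =
        algebraMap (MvPolynomial (τ ⊕ Sg d) k ⧸ 𝔞) K (Ideal.Quotient.mk 𝔞 F) := by
      intro F
      have h1 : (MvPolynomial.aeval y : MvPolynomial (τ ⊕ Sg d) k →ₐ[k] K) =
          (IsScalarTower.toAlgHom k (MvPolynomial (τ ⊕ Sg d) k ⧸ 𝔞) K).comp
            (Ideal.Quotient.mkₐ k 𝔞) := by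
        apply MvPolynomial.algHom_ext
        intro i
        rw [MvPolynomial.aeval_X]
        rfl
      rw [h1]
      rfl
    have hker : ∀ F : MvPolynomial (τ ⊕ Sg d) k, MvPolynomial.aeval y F = 0 ↔ F ∈ 𝔞 := by
      intro F
      rw [hy, ← Ideal.Quotient.eq_zero_iff_mem]
      exact map_eq_zero_iff _ (IsFractionRing.injective (MvPolynomial (τ ⊕ Sg d) k ⧸ 𝔞) K)
    by_cases hI' : ∃ F ∈ I, F ∉ 𝔞
    · obtain ⟨F, hFI, hF⟩ := hI'
      obtain ⟨C1, hC1⟩ := ih _ (hlt F hF)
      exact ⟨C1, fun L _ _ _ x hI hJ ha j => hC1 L x hI hJ (hsup L x F ha (hI F hFI)) j⟩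
    push Not at hI'
    by_cases hJ' : ∃ G ∈ J, G ∉ 𝔞
    swap
    · push Not at hJ'
      refine ⟨0, fun L _ _ _ x _ hJ ha => ?_⟩
      exfalso
      obtain ⟨G, hG, hG0⟩ := hJ
      exact hG0 (ha G (hJ' G hG))
    have hyI : ∀ F ∈ I, MvPolynomial.aeval y F = 0 := fun F hF => (hker F).2 (hI' F hF)
    have hyJ : ∃ G ∈ J, MvPolynomial.aeval y G ≠ 0 := by
      obtain ⟨G, hG, hG0⟩ := hJ'
      exact ⟨G, hG, fun h => hG0 ((hker G).1 h)⟩
    have halg := c_fin k τ d n I J U hU K y hyI hyJ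
    choose D g hg1 hg2 using fun j : τ => alg_rel (fun i => y (Sum.inr i)) (halg (Sum.inl j))
    obtain ⟨H, hH⟩ : ∃ H : MvPolynomial (τ ⊕ Sg d) k,
        H = ∏ j : τ, MvPolynomial.rename Sum.inr (g j (D j)) := ⟨_, rfl⟩
    have hHa : H ∉ 𝔞 := by
      rw [← hker, hH, map_prod]
      refine Finset.prod_ne_zero_iff.2 fun j _ => ?_
      rw [hren]
      exact hg1 j
    obtain ⟨C1, hC1⟩ := ih _ (hlt H hHa)
    obtain ⟨T, hT⟩ : ∃ T : τ → ℕ → ℕ, T = fun j m =>
      (g j m).totalDegree * (Fintype.card (Sg d) * C0) := ⟨_, rfl⟩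
    refine ⟨C1 + ∑ j, ∑ m ∈ Finset.range (D j + 1), T j m, fun L _ _ _ x hI hJ ha j => ?_⟩
    have h0 : (0 : ℤ) ≤ max (canDeg k L) 0 := le_max_right _ _
    by_cases hx : MvPolynomial.aeval x H = 0
    · refine (hC1 L x hI hJ (hsup L x H ha hx) j).trans (mul_le_mul_of_nonneg_right ?_ h0)
      push_cast
      have : (0 : ℤ) ≤ ∑ j, ∑ m ∈ Finset.range (D j + 1), (T j m : ℤ) :=
        Finset.sum_nonneg fun _ _ => Finset.sum_nonneg fun _ _ => Int.natCast_nonneg _
      linarith
    · have hxV := hmaps L x hI hJ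
      have hrel : ∑ m ∈ Finset.range (D j + 1),
          MvPolynomial.aeval (fun i => x (Sum.inr i)) (g j m) * x (Sum.inl j) ^ m = 0 := by
        have h1 : (∑ m ∈ Finset.range (D j + 1), MvPolynomial.rename Sum.inr (g j m) *
            (MvPolynomial.X (Sum.inl j) : MvPolynomial (τ ⊕ Sg d) k) ^ m) ∈ 𝔞 := by
          rw [← hker, map_sum, ← hg2 j]
          refine Finset.sum_congr rfl fun m _ => ?_
          rw [map_mul, map_pow, MvPolynomial.aeval_X, hren]
        have h2 := ha _ h1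
        rw [map_sum] at h2
        rw [← h2]
        refine Finset.sum_congr rfl fun m _ => ?_
        rw [map_mul, map_pow, MvPolynomial.aeval_X, hren]
      have hlead : MvPolynomial.aeval (fun i => x (Sum.inr i)) (g j (D j)) ≠ 0 := by
        rw [hH, map_prod] at hx
        have h1 := Finset.prod_ne_zero_iff.1 hx j (Finset.mem_univ j)
        rwa [hren] at h1
      have h2 : ∀ m, hgt k (MvPolynomial.aeval (fun i => x (Sum.inr i)) (g j m)) ≤
          (T j m : ℤ) * max (canDeg k L) 0 := by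
        intro m
        refine (hgt_mvpoly (k := k) (fun i => x (Sum.inr i)) (g j m)).trans ?_
        have h3 : ∑ i, hgt k (x (Sum.inr i)) ≤
            ((Fintype.card (Sg d) : ℕ) : ℤ) * (C0 * max (canDeg k L) 0) := by
          refine (Finset.sum_le_sum fun i _ => hC0 k L _ hxV i).trans (le_of_eq ?_)
          rw [Finset.sum_const, Finset.card_univ, nsmul_eq_mul]
        refine (mul_le_mul_of_nonneg_left h3 (Nat.cast_nonneg (α := ℤ) (g j m).totalDegree)).trans
          (le_of_eq ?_)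
        rw [hT]
        push_cast
        ring
      refine (hgt_root (k := k) (fun m => MvPolynomial.aeval (fun i => x (Sum.inr i)) (g j m))
        hlead _ hrel).trans ?_
      rw [add_comm, ← Finset.sum_range_succ
        (fun m => hgt k (MvPolynomial.aeval (fun i => x (Sum.inr i)) (g j m)))]
      refine (Finset.sum_le_sum fun m _ => h2 m).trans ?_
      rw [← Finset.sum_mul]
      refine mul_le_mul_of_nonneg_right ?_ h0
      have h5 : ∑ m ∈ Finset.range (D j + 1), T j m ≤
          ∑ j, ∑ m ∈ Finset.range (D j + 1), T j m :=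
        Finset.single_le_sum (f := fun j => ∑ m ∈ Finset.range (D j + 1), T j m)
          (fun _ _ => Nat.zero_le _) (Finset.mem_univ j)
      have h6 : ∑ m ∈ Finset.range (D j + 1), T j m ≤
          C1 + ∑ j, ∑ m ∈ Finset.range (D j + 1), T j m := h5.trans (Nat.le_add_left _ _)
      exact_mod_cast h6
  obtain ⟨C, hC⟩ := key ⊥
  refine ⟨C + C0, fun L _ _ _ x hI hJ i => ?_⟩
  have h0 : (0 : ℤ) ≤ max (canDeg k L) 0 := le_max_right _ _
  rcases i with i | i
  · refine (hC L x hI hJ (fun F hF => ?_) i).trans (mul_le_mul_of_nonneg_right ?_ h0)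
    · rw [(Submodule.mem_bot _).1 hF, map_zero]
    · push_cast
      linarith [Int.natCast_nonneg C0]
  · refine (hC0 k L _ (hmaps L x hI hJ) i).trans (mul_le_mul_of_nonneg_right ?_ h0)
    push_cast
    linarith [Int.natCast_nonneg C]

end Pool.Agent.Run7.h830.CS
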