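import Pool.Agent.Run7.h830.CS.Main
import Pool.Agent.Run7.h830.CS.Geo

/-!
# Subvarieties and the moduli fibration of a map with many preperiodic points
-/

set_option autoImplicit false

namespace Pool.Agent.Run7.h830.CS

open Polynomial FF
open Pool.Agent.W602.GT
open Pool.Agent.TH466.QG (StronglyGeneral SubOf)
open Pool.Agent.N459.JS (common)
open Pool.Agent.Q103.EC (ManyPrep MaxVar prePer Isotrivial)
open Pool.Agent.Q103.VR (DefinedOver ModuliFibration IsVariation)

section vals

variable {k : Type} [Field k]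

theorem val_scale {L : Type} [Field L] [Algebra k L] {M e : ℕ}
    {G : MvPolynomial (Fin (M + 1)) k} (hG : G.IsHomogeneous e) (c : L) (x : Fin (M + 1) → L) :
    val (fun i => c * x i) G = c ^ e * val x G :=
  Pool.Agent.N459.JS.aeval_scale hG c x

theorem val_comp {L : Type} [Field L] [Algebra k L] {M N : ℕ}
    (A : Fin (N + 1) → MvPolynomial (Fin (M + 1)) k) (G : MvPolynomial (Fin (N + 1)) k)
    (p : Fin (M + 1) → L) : val p (MvPolynomial.aeval A G) = val (fun i => val p (A i)) G := by
  unfold Pool.Agent.W602.GT.val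
  rw [MvPolynomial.comp_aeval_apply]

theorem val_coe {L : Type} [Field L] [Algebra k L] (L0 : IntermediateField k L) {N : ℕ}
    (x : Fin (N + 1) → L0) (G : MvPolynomial (Fin (N + 1)) k) :
    val (fun i => (x i : L)) G = ((val x G : L0) : L) := by
  unfold Pool.Agent.W602.GT.val
  exact MvPolynomial.aeval_algebraMap_apply (R := k) (A := L0) L x G

theorem val_mul {L : Type} [Field L] [Algebra k L] {M : ℕ} (p : Fin (M + 1) → L)
    (F G : MvPolynomial (Fin (M + 1)) k) : val p (F * G) = val p F * val p G := by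
  unfold Pool.Agent.W602.GT.val
  exact map_mul _ _ _

/-- the coordinates of a point, divided by one of them -/
theorem exists_norm {F : Type} [Field F] [Algebra k F] {N : ℕ} {u : Fin (N + 1) → F}
    {i1 : Fin (N + 1)} (hu : u i1 ≠ 0) :
    ∃ u' : Fin (N + 1) → coords k u, (∀ j, (u' j : F) = (u i1)⁻¹ * u j) ∧ u' ≠ 0 ∧
      coords k u' = ⊤ := by
  have hmem : ∀ j, u j / u i1 ∈ coords k u := fun j =>
    IntermediateField.subset_adjoin _ _ ⟨j, i1, hu, rfl⟩
  refine ⟨fun j => ⟨u j / u i1, hmem j⟩, fun j => ?_, ?_, ?_⟩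
  · show u j / u i1 = (u i1)⁻¹ * u j
    rw [div_eq_inv_mul]
  · intro h
    have h1 := congrArg (fun v : coords k u => (v : F)) (congrFun h i1)
    simp only [Pi.zero_apply, ZeroMemClass.coe_zero, div_self hu] at h1
    exact one_ne_zero h1
  · rw [eq_top_iff]
    intro v _
    have h1 : ∀ y : F, y ∈ coords k u → ∀ hy : y ∈ coords k u,
        (⟨y, hy⟩ : coords k u) ∈ coords k (fun j => (⟨u j / u i1, hmem j⟩ : coords k u)) := by
      intro y hy
      unfold Pool.Agent.W602.GT.coords at hy
      induction hy using IntermediateField.adjoin_induction with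
      | mem y hy =>
        obtain ⟨i, j, hj, rfl⟩ := hy
        intro hy'
        have h2 : (⟨u i / u j, hy'⟩ : coords k u) =
            (⟨u i / u i1, hmem i⟩ : coords k u) / (⟨u j / u i1, hmem j⟩ : coords k u) := by
          apply Subtype.ext
          show u i / u j = (u i / u i1) / (u j / u i1)
          rw [div_div_div_cancel_right₀ hu]
        rw [h2]
        refine IntermediateField.subset_adjoin _ _ ⟨i, j, ?_, rfl⟩
        intro h3
        have h4 := congrArg (fun v : coords k u => (v : F)) h3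
        exact (div_ne_zero hj hu) h4
      | algebraMap c =>
        intro hy'
        exact (coords k (fun j => (⟨u j / u i1, hmem j⟩ : coords k u))).algebraMap_mem c
      | add a b ha hb iha ihb =>
        intro hy'
        exact add_mem (iha ha) (ihb hb)
      | inv a ha iha =>
        intro hy'
        exact inv_mem (iha ha)
      | mul a b ha hb iha ihb =>
        intro hy'
        exact mul_mem (iha ha) (ihb hb)
    exact h1 v.1 v.2 v.2

end vals

variable {k : Type} [Field k] [IsAlgClosed k] [CharZero k]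

/-- **The images of subvarieties under a rational map to a variety strongly of general type.** -/
theorem image_sub {K : Type} [Field K] [Algebra k K] (E : IntermediateField k K) {M N : ℕ}
    {x : Fin (M + 1) → K} {y : Fin (N + 1) → E} (hgen : coords k x = ⊤)
    (hy : y ≠ 0) (hS : StronglyGeneral k y) :
    ∃ (R : MvPolynomial (Fin (M + 1)) k) (A : Fin (N + 1) → MvPolynomial (Fin (M + 1)) k)
      (e : ℕ) (t : K), IsForm R ∧ val x R ≠ 0 ∧ (∀ i, (A i).IsHomogeneous e) ∧ t ≠ 0 ∧
      (∀ i, val x (A i) = t * (y i : K)) ∧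
      ∀ (F : Type) [Field F] [Algebra k F] (z : Fin (M + 1) → F) (n : ℕ), SubOf k x z →
        val z R ≠ 0 → Algebra.trdeg k F = n → (∃ i, val z (A i) ≠ 0) ∧
        (coords k (fun i => val z (A i)) = ⊥ ∨ ∃ n' : ℕ, 1 ≤ n' ∧ n' ≤ n ∧
          GeneralType k (coords k (fun i => val z (A i))) n') ∧
        (Special k F n (fun _ => False) → coords k (fun i => val z (A i)) = ⊥) := by
  obtain ⟨R0, ⟨e0, hR0⟩, hR1, hR2⟩ := hS
  obtain ⟨i1, hi1⟩ := Function.ne_iff.1 hy
  change y i1 ≠ 0 at hi1
  obtain ⟨e, A, t, ht, hA, hAx⟩ := common (k := k) x hgen (fun i => (y i : K))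
  have hvalG : ∀ (e' : ℕ) (G : MvPolynomial (Fin (N + 1)) k), G.IsHomogeneous e' →
      val x (MvPolynomial.aeval A G) = t ^ e' * ((val y G : E) : K) := by
    intro e' G hG
    rw [val_comp, ← val_coe]
    have h1 : (fun i => val x (A i)) = fun i => t * (y i : K) := funext hAx
    rw [h1]
    exact val_scale hG t _
  refine ⟨A i1 * MvPolynomial.aeval A R0, A, e, t, ?_, ?_, hA, ht, hAx, ?_⟩
  · exact ⟨_, (hA i1).mul (hR0.aeval A hA)⟩
  · rw [val_mul, hvalG e0 R0 hR0, hAx i1]
    refine mul_ne_zero (mul_ne_zero ht ?_) (mul_ne_zero (pow_ne_zero _ ht) ?_)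
    · exact fun h => hi1 (Subtype.ext h)
    · exact fun h => hR1 (Subtype.ext h)
  · intro F _ _ z n hz hzR hn
    rw [val_mul] at hzR
    have h1 : val z (A i1) ≠ 0 := left_ne_zero_of_mul hzR
    have h2 : val z (MvPolynomial.aeval A R0) ≠ 0 := right_ne_zero_of_mul hzR
    obtain ⟨u, hu⟩ : ∃ u : Fin (N + 1) → F, u = fun i => val z (A i) := ⟨_, rfl⟩
    rw [val_comp, ← hu] at h2
    have hu1 : u i1 ≠ 0 := by rw [hu]; exact h1
    rw [← hu]
    obtain ⟨u', hu2, hu3, hu4⟩ := exists_norm (k := k) hu1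
    -- the image is a subvariety of the base
    have hval : ∀ (e' : ℕ) (G : MvPolynomial (Fin (N + 1)) k), G.IsHomogeneous e' →
        ((val u' G : coords k u) : F) = ((u i1)⁻¹) ^ e' * val u G := by
      intro e' G hG
      rw [← val_coe]
      have h3 : (fun i => ((u' i : coords k u) : F)) = fun i => (u i1)⁻¹ * u i := funext hu2
      rw [h3]
      exact val_scale hG _ _
    have hsub : SubOf k y u' := by
      refine ⟨hu3, hu4, ?_⟩
      rintro G ⟨e', hG⟩ hGy
      have h3 : val x (MvPolynomial.aeval A G) = 0 := by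
        rw [hvalG e' G hG, hGy, ZeroMemClass.coe_zero, mul_zero]
      have h4 := hz.spec _ ⟨_, hG.aeval A hA⟩ h3
      rw [val_comp, ← hu] at h4
      apply Subtype.ext
      rw [hval e' G hG, h4, mul_zero, ZeroMemClass.coe_zero]
    have hR3 : val u' R0 ≠ 0 := by
      intro h3
      have h4 := hval e0 R0 hR0
      rw [h3, ZeroMemClass.coe_zero] at h4
      exact mul_ne_zero (pow_ne_zero _ (inv_ne_zero hu1)) h2 h4.symm
    obtain ⟨n', hn', htr⟩ := Pool.Agent.Q103.VR.exists_dim (coords k u) hn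
    have hgt : 1 ≤ n' → GeneralType k (coords k u) n' := fun h1 =>
      hR2 (coords k u) n' u' hsub hR3 h1 htr
    have hbot : n' = 0 → coords k u = ⊥ := by
      intro h0
      rw [h0, Nat.cast_zero] at htr
      have h3 : Algebra.IsAlgebraic k (coords k u) := trdeg_eq_zero_iff.1 htr
      rw [eq_bot_iff]
      intro v hv
      have h4 : IsAlgebraic k (⟨v, hv⟩ : coords k u) := h3.isAlgebraic _
      obtain ⟨c, hc⟩ := IsAlgClosed.algebraMap_bijective_of_isIntegral (k := k)
        (K := coords k u) |>.2 ⟨v, hv⟩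
      rw [IntermediateField.mem_bot]
      exact ⟨c, congrArg (fun v : coords k u => (v : F)) hc⟩
    refine ⟨⟨i1, h1⟩, ?_, fun hSp => ?_⟩
    · rcases Nat.eq_zero_or_pos n' with h0 | h0
      · exact Or.inl (hbot h0)
      · exact Or.inr ⟨n', h0, hn', hgt h0⟩
    · rcases Nat.eq_zero_or_pos n' with h0 | h0
      · exact hbot h0
      · exfalso
        have hess : Algebra.EssFiniteType k (coords k u) := essFinite hu4
        exact Pool.Agent.TH466.QT.not_special hn (coords k u) h0 (hgt h0) hSp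

/-- **Subvarieties and the moduli fibration.** -/
theorem subs (d : ℕ) (hd : 2 ≤ d) : ∃ B : ℕ, ∀ (k : Type) [Field k] [IsAlgClosed k] [CharZero k]
    (K : Type) [Field K] [Algebra k K] (w : ℕ), Algebra.trdeg k K = w →
    ∀ p q : K[X], IsCoprime p q → max p.natDegree q.natDegree = d →
    (B : ℕ∞) ≤ (prePer d p q).encard → ¬ Isotrivial k d p q →
    ∃ (E : IntermediateField k K) (v : ℕ), ModuliFibration d p q E ∧ 1 ≤ v ∧ v ≤ w ∧
      Algebra.trdeg k E = v ∧ (MaxVar k d p q → E = ⊤) ∧ GeneralType k E v ∧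
      ∀ (N : ℕ) (y : Fin (N + 1) → E), y ≠ 0 → coords k y = ⊤ → StronglyGeneral k y := by
  obtain ⟨B1, hB1⟩ := Pool.Agent.Q103.VR.fibration d hd
  obtain ⟨B2, hB2⟩ := geom d hd
  refine ⟨max B1 (max B2 3), ?_⟩
  intro k _ _ _ K _ _ w hw p q hco hmax hmany hiso
  obtain ⟨E, hE, p', q', hmp⟩ := Pool.Agent.Q103.VR.exists_moduli (k := k) hd
    (le_trans (le_max_right B2 3) (le_max_right B1 _)) hco hmax hmany
  obtain ⟨v, hv, htr⟩ := Pool.Agent.Q103.VR.exists_dim E hw
  have hv1 : 1 ≤ v := by
    rcases Nat.eq_zero_or_pos v with h0 | h0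
    · exfalso
      apply hiso
      rw [hE.isotrivial]
      rw [h0, Nat.cast_zero] at htr
      have h3 : Algebra.IsAlgebraic k E := trdeg_eq_zero_iff.1 htr
      intro u hu
      have h4 : IsAlgebraic k (⟨u, hu⟩ : E) := h3.isAlgebraic _
      exact h4.algebraMap (A := K)
    · exact h0
  have hmp2 : ManyPrep k d B2 p' q' := ⟨hmp.coprime, hmp.deg, hmp.maxVar,
    le_trans (by exact_mod_cast le_trans (le_max_left B2 3) (le_max_right B1 _)) hmp.many⟩
  obtain ⟨h1, h2⟩ := hB2 k E p' q' hmp2
  refine ⟨E, v, hE, hv1, hv, htr, fun hm => ?_, h1 v hv1 htr, fun N y hy hygen =>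
    (h2 N y hy hygen).1⟩
  obtain ⟨p', q', a, b, c, e, h2, h3, h4, h5, h6⟩ := hE.defined
  have h7 := hm E p' q' a b c e h2 h3 h4 h5 h6
  rw [eq_top_iff]
  intro u _
  exact hE.closed u (h7.isAlgebraic u)

end Pool.Agent.Run7.h830.CS
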