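import Pool.Agent.Run7.h830.CS.Sub
import Pool.Agent.TH710.SP.Defs

/-!
# Symmetric differentials and curves through a general point of a variety which carries a map with many
preperiodic points
-/

set_option autoImplicit false

namespace Pool.Agent.Run7.h830.CS

open Polynomial FF
open Pool.Agent.W602.GT
open Pool.Agent.N115.JS (ConstCurve)
open Pool.Agent.Y221.BD (EntireCurve)
open Pool.Agent.Q103.KO (SameP)
open Pool.Agent.Q103.EC (prePer MaxVar Isotrivial HypOff)
open Pool.Agent.Q103.VR (ModuliFibration)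
open Pool.Agent.TH710.SP (NoTensors)

/-- **Curves through a general point.** -/
theorem curves_through {K : Type} [Field K] [Algebra ℂ K] {E : IntermediateField ℂ K} {M N : ℕ}
    {x : Fin (M + 1) → K} {y : Fin (N + 1) → E} (hx : x ≠ 0) (hgen : coords ℂ x = ⊤)
    (hy : y ≠ 0) (hygen : coords ℂ y = ⊤) (hE : E ≠ ⊥) (h : ∃ R, HypOff y R) :
    ∃ R : MvPolynomial (Fin (M + 1)) ℂ, IsForm R ∧ val x R ≠ 0 ∧
      ∀ a : Fin (M + 1) → ℂ, MvPolynomial.eval a R ≠ 0 →
        ∃ G : MvPolynomial (Fin (M + 1)) ℂ, IsForm G ∧ val x G ≠ 0 ∧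
          ∀ f, EntireCurve x f → (∃ s, SameP a (fun i => f i s)) →
            ∀ t, MvPolynomial.eval (fun i => f i t) G = 0 := by
  obtain ⟨R0, A, e, t, ⟨e0, hR0⟩, hR0x, hA, ht, hAx, hf⟩ := fibres hx hgen hy h
  obtain ⟨i1, hi1⟩ := Function.ne_iff.1 hy
  change y i1 ≠ 0 at hi1
  refine ⟨A i1 * R0, ⟨_, (hA i1).mul hR0⟩, ?_, ?_⟩
  · rw [val_mul, hAx]
    exact mul_ne_zero (mul_ne_zero ht fun h => hi1 (Subtype.ext h)) hR0x
  · intro a ha
    rw [map_mul] at ha
    have ha1 := left_ne_zero_of_mul ha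
    have ha2 := right_ne_zero_of_mul ha
    obtain ⟨G, hG⟩ : ∃ G : Fin (N + 1) → MvPolynomial (Fin (M + 1)) ℂ, G = fun i =>
      MvPolynomial.C (MvPolynomial.eval a (A i1)) * A i -
        MvPolynomial.C (MvPolynomial.eval a (A i)) * A i1 := ⟨_, rfl⟩
    have hval : ∀ i, val x (G i) = t * (((MvPolynomial.eval a (A i1)) • y i -
        (MvPolynomial.eval a (A i)) • y i1 : E) : K) := by
      intro i
      have h1 : ∀ c : ℂ, val x (MvPolynomial.C c : MvPolynomial (Fin (M + 1)) ℂ) =
          algebraMap ℂ K c := fun c => by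
        unfold Pool.Agent.W602.GT.val
        exact MvPolynomial.aeval_C _ _
      have h2 : val x (G i) = val x (MvPolynomial.C (MvPolynomial.eval a (A i1)) * A i) -
          val x (MvPolynomial.C (MvPolynomial.eval a (A i)) * A i1) := by
        rw [hG]
        unfold Pool.Agent.W602.GT.val
        exact map_sub _ _ _
      rw [h2, val_mul, val_mul, h1, h1, hAx, hAx]
      have h3 : (((MvPolynomial.eval a (A i1)) • y i - (MvPolynomial.eval a (A i)) • y i1 : E) : K) =
          algebraMap ℂ K (MvPolynomial.eval a (A i1)) * (y i : K) -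
            algebraMap ℂ K (MvPolynomial.eval a (A i)) * (y i1 : K) := by
        rw [← Algebra.smul_def, ← Algebra.smul_def]
        rfl
      rw [h3]
      ring
    have hex : ∃ i, val x (G i) ≠ 0 := by
      by_contra hcon
      push Not at hcon
      apply hE
      have h1 : ∀ i, y i = (MvPolynomial.eval a (A i) / MvPolynomial.eval a (A i1)) • y i1 := by
        intro i
        have h2 := hcon i
        rw [hval] at h2
        have h3 := (mul_eq_zero.1 h2).resolve_left ht
        have h4 : (MvPolynomial.eval a (A i1)) • y i - (MvPolynomial.eval a (A i)) • y i1 = 0 :=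
          Subtype.ext h3
        rw [div_eq_inv_mul, mul_smul, ← sub_eq_zero.1 h4, smul_smul, inv_mul_cancel₀ ha1, one_smul]
      have h2 : coords ℂ y ≤ ⊥ := by
        refine coords_le y ⊥ fun i j hj => ?_
        rw [IntermediateField.mem_bot]
        have hj1 : MvPolynomial.eval a (A j) / MvPolynomial.eval a (A i1) ≠ 0 := by
          intro h0
          apply hj
          rw [h1 j, h0, zero_smul]
        refine ⟨(MvPolynomial.eval a (A i) / MvPolynomial.eval a (A i1)) /
          (MvPolynomial.eval a (A j) / MvPolynomial.eval a (A i1)), ?_⟩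
        rw [h1 i, h1 j, Algebra.smul_def, Algebra.smul_def, map_div₀, mul_div_mul_right _ _ hi1]
      rw [hygen] at h2
      rw [eq_bot_iff]
      intro u hu
      have h3 : (⟨u, hu⟩ : E) ∈ (⊥ : IntermediateField ℂ E) := h2 IntermediateField.mem_top
      obtain ⟨c, hc⟩ := IntermediateField.mem_bot.1 h3
      rw [IntermediateField.mem_bot]
      exact ⟨c, congrArg (fun v : E => (v : K)) hc⟩
    obtain ⟨i, hi⟩ := hex
    refine ⟨G i, ⟨e, ?_⟩, hi, ?_⟩
    · rw [hG]
      have h1 := (MvPolynomial.isHomogeneous_C (Fin (M + 1)) (MvPolynomial.eval a (A i1))).mul (hA i)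
      have h2 := (MvPolynomial.isHomogeneous_C (Fin (M + 1)) (MvPolynomial.eval a (A i))).mul (hA i1)
      rw [zero_add] at h1 h2
      exact h1.sub h2
    · rintro f hfc ⟨s, c, hc, hs⟩ t'
      have hsc : ∀ (m : ℕ) (Q : MvPolynomial (Fin (M + 1)) ℂ), Q.IsHomogeneous m →
          MvPolynomial.eval (fun i => f i s) Q = c ^ m * MvPolynomial.eval a Q := by
        intro m Q hQ
        have h1 : (fun i => f i s) = fun i => c * a i := by
          rw [hs]
          rfl
        rw [h1]
        exact Pool.Agent.N459.JS.eval_scale hQ c a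
      have h1 : MvPolynomial.eval (fun i => f i s) R0 ≠ 0 := by
        rw [hsc e0 R0 hR0]
        exact mul_ne_zero (pow_ne_zero _ hc) ha2
      have h2 := hf f hfc ⟨s, h1⟩ t' s i i1
      simp only at h2
      rw [hsc e _ (hA i), hsc e _ (hA i1)] at h2
      have h3 : c ^ e * (MvPolynomial.eval a (A i1) * MvPolynomial.eval (fun j => f j t') (A i) -
          MvPolynomial.eval a (A i) * MvPolynomial.eval (fun j => f j t') (A i1)) = 0 := by
        linear_combination h2
      have h4 := (mul_eq_zero.1 h3).resolve_left (pow_ne_zero _ hc)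
      rw [hG]
      simp only [map_sub, map_mul, MvPolynomial.eval_C]
      exact h4

/-- **Symmetric differentials** of a variety which carries a map with many preperiodic points. -/
theorem tensors (d : ℕ) (hd : 2 ≤ d) : ∃ B : ℕ, ∀ (k K : Type) [Field k] [IsAlgClosed k]
    [CharZero k] [Field K] [Algebra k K] (p q : K[X]), IsCoprime p q →
    max p.natDegree q.natDegree = d → (B : ℕ∞) ≤ (prePer d p q).encard →
    ∀ w : ℕ, Algebra.trdeg k K = w → ¬ Isotrivial k d p q → ∃ m : ℕ, 1 ≤ m ∧
      ∃ ω : MultilinearMap K (fun _ : Fin m => Derivation k K K) K,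
      (∀ (σ : Equiv.Perm (Fin m)) (D' : Fin m → Derivation k K K), ω (fun i => D' (σ i)) = ω D') ∧
      (∀ (v : Place k K) (D' : Fin m → Derivation k K K), (∀ j, DerReg v (D' j)) →
        v.Reg (ω D')) ∧ ω ≠ 0 := by
  obtain ⟨B, hB⟩ := Pool.Agent.Q103.VR.kernel d hd
  refine ⟨B, fun k K _ _ _ _ _ p q hco hmax hmany w hw hiso => ?_⟩
  have : CharZero K := charZero_of_injective_algebraMap (algebraMap k K).injective
  obtain ⟨E, hE, hD⟩ := hB k K p q hco hmax hmany w hw
  obtain ⟨D, y, hy, hDy⟩ : ∃ D : Derivation k K K, ∃ y ∈ E, D y ≠ 0 := by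
    by_contra hcon
    push Not at hcon
    apply hiso
    rw [hE.isotrivial]
    intro y hy
    exact Pool.Agent.Q103.VR.alg_of_der_zero fun D => hcon D y hy
  obtain ⟨m, hm, ω, h1, h2, h3⟩ := hD D ⟨y, hy, hDy⟩
  refine ⟨m, hm, ω, h1, h2, ?_⟩
  rintro rfl
  exact h3 rfl

end Pool.Agent.Run7.h830.CS
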