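import Pool.Agent.Q103.EC.Mxv
import Pool.Agent.Q41.GT.Ah
import Pool.Agent.Q209.GT.Sub

/-!
# Vojta's height inequality over function fields, for varieties which carry a map with many
preperiodic points

The relative version of `Pool.Agent.Q209.GT.dcb`: the base field of the variety is the function field
`F` of a curve over `k`, and the moduli map is generically finite over `F`.
-/

set_option autoImplicit false

namespace Pool.Agent.Run7.h830.CS

open Polynomial FF
open Pool.Agent.Q41.SU (Stab)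
open Pool.Agent.Q41.GT (crs c_cvh)
open Pool.Agent.Q209.GT (crs_finite)
open Pool.Agent.W602.GT (coords val IsForm)
open Pool.Agent.Y216 (OnVar)
open Pool.Agent.Q103.EC (ManyPrep exists_stab)
open Pool.Agent.W603.LV (hgt canDeg hgt_root hgt_nonneg)
open Pool.Agent.W603.PV (pht pht_le hgt_mvpolyF hgt_algebraMap)

/-- **The height inequality.** -/
theorem vojta (d : ℕ) (hd : 2 ≤ d) : ∃ B : ℕ, ∀ (k F K : Type) [Field k] [IsAlgClosed k]
    [CharZero k] [Field F] [Algebra k F] [IsFF k F] [Field K] [Algebra F K] (p q : K[X]),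
    ManyPrep F d B p q → ∀ (M : ℕ) (y : Fin (M + 1) → K), y ≠ 0 → coords F y = ⊤ →
    ∃ G : MvPolynomial (Fin (M + 1)) F, IsForm G ∧ val y G ≠ 0 ∧ ∃ A : ℕ,
      ∀ (L : Type) [Field L] [Algebra k L] [Algebra F L] [IsScalarTower k F L] [IsFF k L]
        (f : Fin (M + 1) → L), OnVar F y f → val f G ≠ 0 →
        pht k f ≤ A * (max (canDeg k L) 0 + Module.finrank F L) := by
  classical
  obtain ⟨B, hB⟩ := c_cvh d hd
  refine ⟨max B (3 * d + 7), ?_⟩
  intro k F K _ _ _ _ _ _ _ _ p q h M y hy hgen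
  have : CharZero F := charZero_of_injective_algebraMap (algebraMap k F).injective
  obtain ⟨p', q', P', hp', hq', hpq', hst, hc, halg⟩ := exists_stab hd (le_max_right _ _) h
  obtain ⟨C, hC⟩ := hB P'.card (le_trans (le_max_left _ _) hc)
  obtain ⟨i1, G, D, g, hG, hxG, hmain⟩ :=
    Pool.Agent.Q209.GT.main (by omega) hp' hq' hpq' hst halg hy hgen
  have : Fintype (crs P') := (crs_finite P').fintype
  obtain ⟨T, hT⟩ : ∃ T : Fin (M + 1) → ℕ → ℕ, T = fun i j =>
    (g i j).totalDegree * (Fintype.card (crs P') * C) := ⟨_, rfl⟩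
  obtain ⟨H, hH⟩ : ∃ H : Fin (M + 1) → ℕ → ℕ, H = fun i j =>
    ∑ α ∈ (g i j).support, (hgt k ((g i j).coeff α)).toNat := ⟨_, rfl⟩
  obtain ⟨A, hA⟩ : ∃ A : ℕ, A = ∑ i, ∑ j ∈ Finset.range (D i + 1), (T i j + H i j) := ⟨_, rfl⟩
  refine ⟨G, hG, hxG, A, ?_⟩
  intro L _ _ _ _ _ f hf hfG
  obtain ⟨hf1, p'', q'', P'', c', hp'', hq'', hc', hS', hcard', hcr, hrel⟩ := hmain L f hf hfG
  set χ : ℤ := max (canDeg k L) 0 with hχ
  have hχ0 : 0 ≤ χ := le_max_right _ _
  set n : ℤ := (Module.finrank F L : ℤ) with hn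
  have hn0 : 0 ≤ n := Int.natCast_nonneg _
  have h1 : ∀ c, hgt k (c' c) ≤ C * χ := fun c => hC k L p'' q'' hp'' hq'' hc' P'' hS' hcard' _ (hcr c)
  have h2 : ∀ i j, hgt k (MvPolynomial.aeval c' (g i j)) ≤ (T i j : ℤ) * χ + (H i j : ℤ) * n := by
    intro i j
    refine (hgt_mvpolyF (k := k) c' (g i j)).trans (add_le_add ?_ ?_)
    · have h3 : ∑ c, hgt k (c' c) ≤ ((Fintype.card (crs P') : ℕ) : ℤ) * (C * χ) := by
        refine (Finset.sum_le_sum fun c _ => h1 c).trans (le_of_eq ?_)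
        rw [Finset.sum_const, Finset.card_univ, nsmul_eq_mul]
      refine (mul_le_mul_of_nonneg_left h3 (Nat.cast_nonneg (α := ℤ) (g i j).totalDegree)).trans
        (le_of_eq ?_)
      rw [hT]
      push_cast
      ring
    · rw [hH]
      push_cast
      rw [Finset.sum_mul]
      refine Finset.sum_le_sum fun α _ => ?_
      rw [hgt_algebraMap, Int.toNat_of_nonneg (hgt_nonneg _)]
      exact le_of_eq (mul_comm _ _)
  have h4 : ∀ i, hgt k (f i / f i1) ≤ (∑ j ∈ Finset.range (D i + 1),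
      (T i j + H i j) : ℕ) * (χ + n) := by
    intro i
    refine (hgt_root (k := k) (fun j => MvPolynomial.aeval c' (g i j)) (hrel i).1 _
      (hrel i).2).trans ?_
    rw [add_comm, ← Finset.sum_range_succ (fun j => hgt k (MvPolynomial.aeval c' (g i j)))]
    push_cast
    rw [Finset.sum_mul]
    refine Finset.sum_le_sum fun j _ => (h2 i j).trans ?_
    have e1 : (0 : ℤ) ≤ (T i j : ℤ) * n := mul_nonneg (Int.natCast_nonneg _) hn0
    have e2 : (0 : ℤ) ≤ (H i j : ℤ) * χ := mul_nonneg (Int.natCast_nonneg _) hχ0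
    linarith [add_mul (T i j : ℤ) (H i j : ℤ) (χ + n), mul_add (T i j : ℤ) χ n,
      mul_add (H i j : ℤ) χ n]
  refine (pht_le (k := k) f hf1).trans ((Finset.sum_le_sum fun j _ => h4 j).trans (le_of_eq ?_))
  rw [← Finset.sum_mul, hA]
  push_cast
  rfl

end Pool.Agent.Run7.h830.CS
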